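import Pool.Agent.Helper26.CP.OA5a

/-!
MP_82cbb9_al, module OA-5b (blueprint of helper98): certificates for the transporter, kinds `Z`, `T`.
-/

set_option autoImplicit false

namespace Pool.Agent.CP

open Stage

variable {G V : Type*} [Group G] [AddCommGroup V] [Module ℚ V]

namespace OA5b

section lists

variable {W : Type*} [AddCommGroup W]

theorem lc_sub_lc : ∀ (vs : List W) (e e' : List ℤ), e.length = vs.length →
    e'.length = vs.length → lc vs e - lc vs e' = lc vs (List.zipWith (· - ·) e e')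
  | [], _, _, _, _ => by simp [lc]
  | v :: vs, [], _, h, _ => by simp at h
  | v :: vs, _ :: _, [], _, h => by simp at h
  | v :: vs, a :: e, a' :: e', h, h' => by
    have := lc_sub_lc vs e e' (by simpa using h) (by simpa using h')
    simp only [lc, List.zipWith_cons_cons, ← this, sub_smul]
    abel

theorem smul_lc (m : ℤ) : ∀ (vs : List W) (e : List ℤ),
    m • lc vs e = lc vs (e.map (m * ·))
  | [], _ => by simp [lc]
  | v :: vs, [] => by simp [lc]
  | v :: vs, a :: e => by
    have := smul_lc m vs e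
    simp only [lc, List.map_cons, ← this, smul_add, mul_smul]

theorem lq_of_int [Module ℚ W] : ∀ (vs : List W) (e : List ℤ),
    lq vs (e.map (Int.cast : ℤ → ℚ)) = lc vs e
  | [], _ => by simp [lc, lq]
  | v :: vs, [] => by simp [lc, lq]
  | v :: vs, a :: e => by
    have := lq_of_int vs e
    simp only [lc, lq, List.map_cons, this, Int.cast_smul_eq_zsmul]

theorem smul_lq [Module ℚ W] (m : ℚ) : ∀ (vs : List W) (q : List ℚ),
    m • lq vs q = lq vs (q.map (m * ·))
  | [], _ => by simp [lq]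
  | v :: vs, [] => by simp [lq]
  | v :: vs, a :: e => by
    have := smul_lq m vs e
    simp only [lq, List.map_cons, ← this, smul_add, mul_smul]

theorem common_den : ∀ q : List ℚ, ∃ m : ℕ, 0 < m ∧ ∃ e : List ℤ, e.length = q.length ∧
    e.map (Int.cast : ℤ → ℚ) = q.map ((m : ℚ) * ·)
  | [] => ⟨1, one_pos, [], rfl, rfl⟩
  | a :: q => by
    obtain ⟨m, hm, e, he, h⟩ := common_den q
    refine ⟨a.den * m, Nat.mul_pos a.pos hm, (a.num * m) :: e.map ((a.den : ℤ) * ·), by simp [he],
      ?_⟩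
    simp only [List.map_cons, List.map_map]
    congr 1
    · push_cast
      have : ((a.den : ℕ) : ℚ) * a = a.num := by rw [mul_comm]; exact Rat.mul_den_eq_num a
      rw [mul_assoc, mul_comm (m : ℚ) a, ← mul_assoc, this]
    · have h2 : (e.map (Int.cast : ℤ → ℚ)).map ((a.den : ℚ) * ·)
          = (q.map ((m : ℚ) * ·)).map ((a.den : ℚ) * ·) := by rw [h]
      rw [List.map_map, List.map_map] at h2
      have e1 : (Int.cast : ℤ → ℚ) ∘ (fun x : ℤ => (a.den : ℤ) * x)
          = (fun x : ℚ => (a.den : ℚ) * x) ∘ (Int.cast : ℤ → ℚ) := by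
        funext x; simp
      have e2 : (fun x : ℚ => ((a.den * m : ℕ) : ℚ) * x)
          = (fun x : ℚ => (a.den : ℚ) * x) ∘ (fun x : ℚ => (m : ℚ) * x) := by
        funext x; simp [mul_assoc]
      rw [e1, e2]
      exact h2

theorem eq_of_zipWith_sub : ∀ (e e' : List ℤ), e.length = e'.length →
    (∀ i ∈ List.zipWith (· - ·) e e', i = 0) → e = e'
  | [], [], _, _ => rfl
  | [], _ :: _, h, _ => by simp at h
  | _ :: _, [], h, _ => by simp at h
  | a :: e, a' :: e', h, h' => by
    simp only [List.zipWith_cons_cons, List.mem_cons, forall_eq_or_imp] at h'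
    rw [eq_of_zipWith_sub e e' (by simpa using h) h'.2, sub_eq_zero.1 h'.1]

end lists

section cocycle

variable {S : Stage G V}

theorem d_zpow_triv {x : V} (htriv : ∀ g ∈ S.C x, S.Triv g) {a : G} (ha : a ∈ S.C x) (n : ℤ) :
    S.d x (a ^ n) - n • S.d x a ∈ S.U' := by
  induction n using Int.induction_on with
  | zero => simp [d_one]
  | succ n ih =>
    have h1 := triv_d (htriv _ ((S.C x).zpow_mem ha n)) ha
    have e1 : S.d x (a ^ ((n : ℤ) + 1)) - ((n : ℤ) + 1) • S.d x a
        = (S.d x (a ^ (n : ℤ) * a) - (S.d x (a ^ (n : ℤ)) + S.d x a))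
          + (S.d x (a ^ (n : ℤ)) - (n : ℤ) • S.d x a) := by
      rw [zpow_add_one, add_smul, one_smul]; abel
    rw [e1]
    exact S.U'.add_mem h1 ih
  | pred n ih =>
    have h1 := triv_d (htriv _ ((S.C x).zpow_mem ha (-(n : ℤ) - 1))) ha
    have e1 : S.d x (a ^ (-(n : ℤ) - 1)) - (-(n : ℤ) - 1) • S.d x a
        = (S.d x (a ^ (-(n : ℤ))) - (-(n : ℤ)) • S.d x a)
          - (S.d x (a ^ (-(n : ℤ) - 1) * a) - (S.d x (a ^ (-(n : ℤ) - 1)) + S.d x a)) := by
      rw [← zpow_add_one, sub_add_cancel, sub_smul, one_smul]; abel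
    rw [e1]
    exact S.U'.sub_mem ih h1

theorem pw_mem {H : Subgroup G} : ∀ (b : List G) (_ : ∀ g ∈ b, g ∈ H) (e : List ℤ), pw b e ∈ H
  | [], _, _ => by simp [pw]
  | g :: b, _, [] => by simp [pw]
  | g :: b, hb, a :: e => by
    simp only [pw]
    exact H.mul_mem (H.zpow_mem (hb g (by simp)) a)
      (pw_mem b (fun g' h' => hb g' (by simp [h'])) e)

theorem d_pw_triv {x : V} (htriv : ∀ g ∈ S.C x, S.Triv g) :
    ∀ (b : List G) (_ : ∀ g ∈ b, g ∈ S.C x) (e : List ℤ),
      S.d x (pw b e) - lc (b.map (S.d x)) e ∈ S.U'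
  | [], _, _ => by simp [pw, lc, d_one]
  | g :: b, _, [] => by simp [pw, lc, d_one]
  | g :: b, hb, a :: e => by
    have hg : g ∈ S.C x := hb g (by simp)
    have hb' : ∀ g ∈ b, g ∈ S.C x := fun g' h' => hb g' (by simp [h'])
    have h1 := d_zpow_triv htriv hg a
    have h2 := d_pw_triv htriv b hb' e
    have h3 := triv_d (htriv _ ((S.C x).zpow_mem hg a)) (pw_mem b hb' e)
    simp only [pw, lc, List.map_cons]
    have e1 : S.d x (g ^ a * pw b e) - (a • S.d x g + lc (b.map (S.d x)) e)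
        = (S.d x (g ^ a * pw b e) - (S.d x (g ^ a) + S.d x (pw b e)))
          + (S.d x (g ^ a) - a • S.d x g) + (S.d x (pw b e) - lc (b.map (S.d x)) e) := by
      abel
    rw [e1]
    exact S.U'.add_mem (S.U'.add_mem h3 h1) h2

/-- the subgroup of `C x` where the cocycle vanishes modulo `NQ` -/
def CQ (S : Stage G V) (x : V) : Subgroup G where
  carrier := {g | g ∈ S.C x ∧ S.NQ x (S.d x g)}
  one_mem' := ⟨(S.C x).one_mem, by rw [d_one]; exact NQ.zero⟩
  mul_mem' := by
    rintro a b ⟨ha, ha'⟩ ⟨hb, hb'⟩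
    refine ⟨(S.C x).mul_mem ha hb, ?_⟩
    rw [d_mul]
    exact (hb'.act ha).add ha'
  inv_mem' := by
    rintro a ⟨ha, ha'⟩
    refine ⟨(S.C x).inv_mem ha, ?_⟩
    rw [d_inv]
    exact (ha'.act ((S.C x).inv_mem ha)).neg

theorem NQ_of_mem_cl {x : V} {h : List G} (hC : ∀ g ∈ h, g ∈ S.C x)
    (hh : ∀ g ∈ h, S.NQ x (S.d x g)) {g : G} (hg : g ∈ S.C x) (hg' : g ∈ S.cl h) :
    S.NQ x (S.d x g) := by
  have hg2 : g ∈ ((Subgroup.closure {g | g ∈ h} ⊔ S.N : Subgroup G) : Set G) := hg'
  rw [Subgroup.mul_normal] at hg2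
  obtain ⟨w, hw, ν, hν, rfl⟩ := Set.mem_mul.1 hg2
  have hw' : w ∈ CQ S x := by
    have : Subgroup.closure {g | g ∈ h} ≤ CQ S x :=
      (Subgroup.closure_le _).2 fun g hg => ⟨hC g hg, hh g hg⟩
    exact this hw
  have hν' : ν ∈ S.C x := by
    have := (S.C x).mul_mem ((S.C x).inv_mem hw'.1) hg
    simpa using this
  exact ((CQ S x).mul_mem hw' ⟨hν', (NB_of_mem_N hν hν').NQ⟩).2

end cocycle

end OA5b

open OA5b

theorem not_T_iff_Z {S : Stage G V} {x z : V} {b h c : List G} (hc : S.Conf x b h c)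
    (hz : z ∈ S.U) (hb : b = []) : ¬ S.T x z ↔ S.NTZ x z b c := by
  rw [T_iff hc hz]
  subst hb
  constructor
  · intro hT
    refine ⟨rfl, fun g hg hNB => hT ⟨[], rfl, g, hg, ?_⟩⟩
    simpa [pw] using hNB
  · rintro ⟨-, h1⟩ ⟨e, he, g, hg, hNB⟩
    exact h1 g hg (by simpa [pw] using hNB)

theorem not_T_iff_T {S : Stage G V} {x z : V} {b h c : List G} (hc : S.Conf x b h c)
    (hz : z ∈ S.U) (htriv : ∀ g ∈ S.C x, S.Triv g) (hh : ∀ g ∈ h, S.NQ x (S.d x g))
    (hb : Ind (S.NQ x) (b.map (S.d x))) : ¬ S.T x z ↔ S.NTT x z b c := by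
  have key : ∀ e : List ℤ, ∀ g ∈ c, S.NQ x (S.d x (pw b e * g) - lc (b.map (S.d x)) e) := by
    intro e g hg
    have hgC := hc.c_mem g hg
    have hpw : pw b e ∈ S.C x := pw_mem b hc.b_mem e
    have h1 := triv_d (htriv _ hpw) hgC
    have h2 := d_pw_triv htriv b hc.b_mem e
    have h3 : S.NQ x (S.d x g) := NQ_of_mem_cl hc.h_mem hh hgC (hc.c_cl g hg)
    have h4 := (NQ.of_mem (x := x) (S.U'.add_mem h1 h2)).add h3
    have e1 : S.d x (pw b e * g) - (S.d x (pw b e) + S.d x g)
        + (S.d x (pw b e) - lc (b.map (S.d x)) e) + S.d x g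
        = S.d x (pw b e * g) - lc (b.map (S.d x)) e := by abel
    rwa [e1] at h4
  have hlen : (b.map (S.d x)).length = b.length := by simp
  rw [T_iff hc hz]
  constructor
  · intro hT
    by_cases hq : ∃ q : List ℚ, q.length = b.length ∧ S.NQ x (z - lq (b.map (S.d x)) q)
    · obtain ⟨q, hq, hNQ⟩ := hq
      obtain ⟨m, hm, e, he, hem⟩ := common_den q
      by_cases hdiv : ∃ i ∈ e, ¬ (m : ℤ) ∣ i
      · refine Or.inr (Or.inl ⟨m, hm, e, he.trans hq, ?_, hdiv⟩)
        have h1 := hNQ.smul (m : ℚ)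
        rwa [smul_sub, smul_lq, ← hem, lq_of_int, Nat.cast_smul_eq_nsmul] at h1
      · push Not at hdiv
        have hm0 : (m : ℤ) ≠ 0 := by exact_mod_cast hm.ne'
        have hmq : (m : ℚ) ≠ 0 := by exact_mod_cast hm.ne'
        refine Or.inr (Or.inr ⟨e.map (· / (m : ℤ)), by rw [List.length_map]; exact he.trans hq,
          ?_, ?_⟩)
        · have h1 : (e.map (· / (m : ℤ))).map (Int.cast : ℤ → ℚ) = q := by
            have h2 : (e.map (Int.cast : ℤ → ℚ)).map ((m : ℚ)⁻¹ * ·) = q := by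
              rw [hem, List.map_map]
              conv_rhs => rw [← List.map_id q]
              apply List.map_congr_left
              intro a _
              simp [hmq]
            rw [← h2, List.map_map, List.map_map]
            apply List.map_congr_left
            intro a ha
            obtain ⟨t, rfl⟩ := hdiv a ha
            simp only [Function.comp_apply]
            rw [Int.mul_ediv_cancel_left _ hm0]
            push_cast
            rw [← mul_assoc, inv_mul_cancel₀ hmq, one_mul]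
          rw [← lq_of_int, h1]
          exact hNQ
        · intro g hg hNB
          exact hT ⟨_, by rw [List.length_map]; exact he.trans hq, g, hg, hNB⟩
    · exact Or.inl hq
  · rintro hN ⟨e, he, g, hg, hNB⟩
    have hz' : S.NQ x (z - lc (b.map (S.d x)) e) := hNB.swap.NQ.trans (key e g hg)
    rcases hN with h1 | ⟨m, hm, e', he', h1, i, hi, hi'⟩ | ⟨e', he', h1, h2⟩
    · exact h1 ⟨e.map (Int.cast : ℤ → ℚ), by simpa using he, by rw [lq_of_int]; exact hz'⟩
    · have h2 := h1.sub (hz'.smul (m : ℚ))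
      have e1 : m • z - lc (b.map (S.d x)) e' - (m : ℚ) • (z - lc (b.map (S.d x)) e)
          = lc (b.map (S.d x)) (e.map ((m : ℤ) * ·)) - lc (b.map (S.d x)) e' := by
        rw [← smul_lc, Nat.cast_smul_eq_nsmul, smul_sub, natCast_zsmul]; abel
      rw [e1, lc_sub_lc _ _ _ (by simp [he]) (by rw [hlen]; exact he')] at h2
      have h3 := hb _ (by simp [he, he']) h2
      have h4 := eq_of_zipWith_sub _ _ (by simp [he, he']) h3
      rw [← h4, List.mem_map] at hi
      obtain ⟨a, -, rfl⟩ := hi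
      exact hi' (dvd_mul_right _ _)
    · have h3 := hz'.sub h1
      have e1 : z - lc (b.map (S.d x)) e - (z - lc (b.map (S.d x)) e')
          = lc (b.map (S.d x)) e' - lc (b.map (S.d x)) e := by abel
      rw [e1, lc_sub_lc _ _ _ (by rw [hlen]; exact he') (by rw [hlen]; exact he)] at h3
      have h4 := hb _ (by simp [he, he']) h3
      have h5 := eq_of_zipWith_sub _ _ (by simp [he, he']) h4
      subst h5
      exact h2 g hg hNB

end Pool.Agent.CP
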